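import Pool.Agent.Lib.MP_716709_gt.Light93.DiamondLight

set_option autoImplicit false

namespace Pool.Agent.Results.MP_716709_gt.LightFunctions

open Finset Pool.Agent.Lib.MP_716709_gt Pool.Agent.Lib.MP_716709_gt.Light93

/-- Every metric space with at most `n` points and an `L`-light function embeds with distortion
at most `D ≥ 768 L` into `ℓ₁^k` with `k ≤ 65 D n^(851000 L²/D²) log n`. So the supremum `KL L n D`
of `dimD M D` over the subsets `M` of `ℓ₁` of this class is at most this number (rounded down);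
for `L ≥ 8` and `D ≥ 1` it is at least `n^(1/(64 D²)) / (4 D)` (rounded up). -/
theorem result :
    (∀ (n : ℕ) (L D : ℝ), 2 ≤ n → 1 ≤ L → 768 * L ≤ D →
      ∀ (X : Type) [MetricSpace X] [Fintype X], Fintype.card X ≤ n →
      (∃ h : X → ℝ, IsLight L h) →
      ∃ k : ℕ, (k : ℝ) ≤ 65 * D * (n : ℝ) ^ (851000 * L ^ 2 / D ^ 2) * Real.log n ∧
        EmbedsSp X D k) ∧
    (∀ (n : ℕ) (L D : ℝ), 2 ≤ n → 1 ≤ L → 768 * L ≤ D →
      KL L n D ≤
        ((⌊65 * D * (n : ℝ) ^ (851000 * L ^ 2 / D ^ 2) * Real.log n⌋₊ : ℕ) : ℕ∞)) ∧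
    (∀ (n : ℕ) (L D : ℝ), 2 ≤ n → 8 ≤ L → 1 ≤ D →
      ((⌈(n : ℝ) ^ (1 / (64 * D ^ 2)) / (4 * D)⌉₊ : ℕ) : ℕ∞) ≤ KL L n D) := by
  refine ⟨?_, ?_, ?_⟩
  · intro n L D hn hL hD X _ _ hX hh
    obtain ⟨h, hh⟩ := hh
    exact embeds_light hn hL hD X hX h hh
  · intro n L D hn hL hD
    exact KL_upper hn hL hD
  · intro n L D hn hL hD
    exact KL_lower hn hL hD

end Pool.Agent.Results.MP_716709_gt.LightFunctions
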