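import Pool.Agent.Lib.MP_716709_gt.Near.Carath
import Pool.Agent.Lib.MP_716709_gt.Low.Final

/-!
# Near-isometric dimension reduction in `ℓ₁`

`K n D` is the least dimension `k` such that every subset of `ℓ₁` with at most `n` points embeds
into `ℓ₁^k` with distortion at most `D`.  For all `n ≥ 2` and `0 < ε ≤ 1`

`c min(n, 1/ε) n^(1 - 11 ε log(2/ε)) ≤ K(n, 1+ε) ≤ C min(n, (log n)/ε) n`.
-/

set_option autoImplicit false

namespace Pool.Agent.Results.MP_716709_gt.NearIsometricOrder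

open Pool.Agent.Lib.MP_716709_gt

theorem result : ∃ c C : ℝ, 0 < c ∧ 0 < C ∧ ∀ (n : ℕ) (ε : ℝ), 2 ≤ n → 0 < ε → ε ≤ 1 →
    ((⌈c * (min (n : ℝ) (1 / ε) * (n : ℝ) ^ (1 - 11 * (ε * Real.log (2 / ε))))⌉₊ : ℕ) : ℕ∞) ≤
      K n (1 + ε) ∧
    K n (1 + ε) ≤ ((⌊C * (min (n : ℝ) (Real.log n / ε) * n)⌋₊ : ℕ) : ℕ∞) := by
  obtain ⟨c, hc, hlow⟩ := Low.K_ge_near
  obtain ⟨C, hC, hup⟩ := Near.K_le_near'
  exact ⟨c, C, hc, hC, fun n ε hn hε hε1 => ⟨hlow n ε hn hε hε1, hup n ε hn hε hε1⟩⟩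

end Pool.Agent.Results.MP_716709_gt.NearIsometricOrder
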