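import Pool.Agent.Lib.MP_716709_gt.Sharp93.Hamming
import Pool.Agent.Lib.MP_716709_gt.Sharp93.Random
import Pool.Agent.Lib.MP_716709_gt.Sharp93.Wrap

set_option autoImplicit false

namespace Pool.Agent.Results.MP_716709_gt.SharpUpper

open Finset Pool.Agent.Lib.MP_716709_gt Pool.Agent.Lib.MP_716709_gt.Upper
  Pool.Agent.Lib.MP_716709_gt.Sharp93

/-- the minimal distance of a finite set is positive -/
theorem exists_sep (M : Finset L1) : ∃ δ : ℝ, 0 < δ ∧ ∀ x y : M, x ≠ y → δ ≤ dist x y := by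
  classical
  by_cases h : Nonempty {q : M × M // q.1 ≠ q.2}
  · obtain ⟨q0, hq0⟩ := Finite.exists_min (fun q : {q : M × M // q.1 ≠ q.2} => dist q.1.1 q.1.2)
    exact ⟨dist q0.1.1 q0.1.2, dist_pos.2 q0.2, fun x y hxy => hq0 ⟨(x, y), hxy⟩⟩
  · rw [not_nonempty_iff] at h
    exact ⟨1, one_pos, fun x y hxy => (h.false ⟨(x, y), hxy⟩).elim⟩

/-- For every `ε > 0` there is `C` with `K(n,D) ≤ C n^{(2+ε)/(D-1)} (log n)^2` for all `n ≥ 2`
and `D ≥ 2`. -/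
theorem result (ε : ℝ) (hε : 0 < ε) : ∃ C : ℝ, 0 < C ∧ ∀ (n : ℕ) (D : ℝ), 2 ≤ n → 2 ≤ D →
    K n D ≤ ((⌊C * (n : ℝ) ^ ((2 + ε) / (D - 1)) * Real.log n ^ 2⌋₊ : ℕ) : ℕ∞) := by
  set e : ℝ := min (1 / 16) (ε / 48) with he
  have he0 : 0 < e := lt_min (by norm_num) (by positivity)
  have he1 : e ≤ 1 / 16 := min_le_left _ _
  have he2 : 48 * e ≤ ε := by
    have := min_le_right (1 / 16 : ℝ) (ε / 48)
    rw [← he] at this
    linarith
  obtain ⟨L₀, hL₀⟩ := pow_unbounded_of_one_lt (1 / e) (by norm_num : (1 : ℝ) < 2)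
  have hL₀' : 1 ≤ e * 2 ^ L₀ := by
    rw [div_lt_iff₀ he0] at hL₀
    linarith
  refine wrap_sharp he0 he1 he2 (L₀ := L₀) ?_
  intro n M hM J hJ
  obtain ⟨δ, hδ, hsep⟩ := exists_sep M
  obtain ⟨m, β, w, hβ, hw⟩ := exists_beta_sharp M (Δ₀ := e * δ) (by positivity) he0 (by linarith)
  exact random_sharp (by rw [Fintype.card_coe]; exact hM) hδ hsep he0 (by linarith) hL₀' β w hβ hw hJ

end Pool.Agent.Results.MP_716709_gt.SharpUpper
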